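import Pool.Agent.Helper10K1.ML.Stm

/-!
# Piece ACT of helper10's project ML: automorphisms act on the ultraproduct
-/

set_option autoImplicit false

namespace Pool.Agent.Helper19.ML

open Filter Pool.Agent.Helper10K1.ML

universe u

variable (F : ℕ → Type u) [∀ N, Field (F N)] (U : Ultrafilter ℕ)

/-- the action as a ring homomorphism -/
noncomputable def actR (g : ∀ N, G (F N)) : Om F U →+* Om F U :=
  Ideal.quotientMap _ (RingHom.pi fun N =>
    ((g N : SeparableClosure (F N) ≃ₐ[F N] SeparableClosure (F N)) :
      SeparableClosure (F N) →+* SeparableClosure (F N)).comp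
      (Pi.evalRingHom (fun N => SeparableClosure (F N)) N)) (by
      intro x hx
      rw [Ideal.mem_comap]
      filter_upwards [hx] with N h
      show (g N) (x N) = 0
      rw [h, map_zero])

lemma actR_cls (g : ∀ N, G (F N)) (x : ∀ N, SeparableClosure (F N)) :
    actR F U g (cls _ U x) = cls _ U fun N => g N (x N) := rfl

/-- the action as an automorphism -/
noncomputable def actA (g : ∀ N, G (F N)) : Om F U ≃ₐ[Ul F U] Om F U :=
  AlgEquiv.ofRingEquiv (f := RingEquiv.ofRingHom (actR F U g) (actR F U g⁻¹)
    (by
      refine RingHom.ext fun x => ?_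
      obtain ⟨y, rfl⟩ := cls_surj _ U x
      show actR F U g (actR F U g⁻¹ (cls _ U y)) = cls _ U y
      rw [actR_cls, actR_cls]
      congr 1
      funext N
      exact (g N).apply_symm_apply (y N))
    (by
      refine RingHom.ext fun x => ?_
      obtain ⟨y, rfl⟩ := cls_surj _ U x
      show actR F U g⁻¹ (actR F U g (cls _ U y)) = cls _ U y
      rw [actR_cls, actR_cls]
      congr 1
      funext N
      exact (g N).symm_apply_apply (y N)))
    (by
      intro x
      obtain ⟨y, rfl⟩ := cls_surj _ U x
      show actR F U g (algebraMap (Ul F U) (Om F U) (cls F U y)) = _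
      rw [inc_cls, actR_cls]
      congr 1
      funext N
      exact (g N).commutes (y N))

lemma actA_cls (g : ∀ N, G (F N)) (x : ∀ N, SeparableClosure (F N)) :
    actA F U g (cls _ U x) = cls _ U fun N => g N (x N) := rfl

theorem t_ACT : S_ACT.{u} := by
  intro F _ U
  refine ⟨{ toFun := actA F U
            map_one' := ?_
            map_mul' := ?_ }, ?_, ?_⟩
  · ext x
    obtain ⟨y, rfl⟩ := cls_surj _ U x
    rw [actA_cls]
    rfl
  · intro g h
    ext x
    obtain ⟨y, rfl⟩ := cls_surj _ U x
    rw [actA_cls]
    rfl
  · intro g x
    exact actA_cls F U g x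
  · intro x hx
    obtain ⟨y, rfl⟩ := cls_surj _ U x
    have hx' : ∀ g : ∀ N, G (F N), ∀ᶠ N in U, g N (y N) = y N := by
      intro g
      have := hx g
      change actA F U g (cls _ U y) = cls _ U y at this
      rw [actA_cls, cls_eq] at this
      exact this
    by_cases h : ∀ᶠ N in U, y N ∈ Set.range (algebraMap (F N) (SeparableClosure (F N)))
    · classical
      let z : ∀ N, F N := fun N =>
        if h : y N ∈ Set.range (algebraMap (F N) (SeparableClosure (F N))) then h.choose else 0
      refine ⟨cls F U z, ?_⟩
      rw [inc_cls, cls_eq]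
      filter_upwards [h] with N hN
      have : z N = hN.choose := dif_pos hN
      rw [this]
      exact hN.choose_spec
    · exfalso
      have h' := Ultrafilter.eventually_not.2 h
      classical
      let g : ∀ N, G (F N) := fun N =>
        if h : ∃ g : G (F N), g (y N) ≠ y N then h.choose else 1
      have h1 := hx' g
      obtain ⟨N, hN1, hN2⟩ := (h1.and h').exists
      have hex : ∃ g : G (F N), g (y N) ≠ y N := by
        by_contra hcon
        push Not at hcon
        exact hN2 ((InfiniteGalois.mem_range_algebraMap_iff_fixed (y N)).mpr hcon)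
      have : g N = hex.choose := dif_pos hex
      rw [this] at hN1
      exact hex.choose_spec hN1

end Pool.Agent.Helper19.ML
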