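import Pool.Agent.Helper10K1.ML.Stm

/-!
# Piece SC of helper10's project ML: ultraproducts of separably closed fields
-/

set_option autoImplicit false

namespace Pool.Agent.Helper19.ML

open Filter Polynomial Pool.Agent.Helper10K1.ML

universe u

variable (K : ℕ → Type u) [∀ N, Field (K N)] (U : Ultrafilter ℕ)

lemma ev_zero (q : (∀ N, K N)[X]) (h : q.map (Ideal.Quotient.mk (UI K U)) = 0) :
    ∀ᶠ N in U, q.map (Pi.evalRingHom K N) = 0 := by
  have h1 : ∀ i ∈ Finset.range (q.natDegree + 1), ∀ᶠ N in U, (q.coeff i) N = 0 := by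
    intro i _
    rw [← cls_eq_zero]
    have := congrArg (fun r => Polynomial.coeff r i) h
    simpa using this
  have h2 := (Filter.eventually_all_finset (Finset.range (q.natDegree + 1))).mpr h1
  filter_upwards [h2] with N hN
  ext i
  rw [coeff_map, coeff_zero]
  by_cases hi : i ∈ Finset.range (q.natDegree + 1)
  · exact hN i hi
  · have h3 : q.coeff i = 0 := coeff_eq_zero_of_natDegree_lt (by
      rw [Finset.mem_range] at hi; omega)
    rw [h3, map_zero]

theorem sepClosed_ul [∀ N, IsSepClosed (K N)] : IsSepClosed (Ul K U) := by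
  refine IsSepClosed.of_exists_root _ fun f hf hirr hsep => ?_
  have hsurj : Function.Surjective (Ideal.Quotient.mk (UI K U)) := Ideal.Quotient.mk_surjective
  have hlift : ∀ g : (Ul K U)[X], g ∈ lifts (Ideal.Quotient.mk (UI K U)) := fun g => by
    rw [mem_lifts]
    exact Polynomial.map_surjective _ hsurj g
  obtain ⟨F, hF, hFd, hFm⟩ := lifts_and_natDegree_eq_and_monic (hlift f) hf
  obtain ⟨a, b, hab⟩ := hsep
  obtain ⟨A, hA⟩ := Polynomial.map_surjective _ hsurj a
  obtain ⟨B, hB⟩ := Polynomial.map_surjective _ hsurj b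
  have h0 : (A * F + B * derivative F - 1).map (Ideal.Quotient.mk (UI K U)) = 0 := by
    rw [Polynomial.map_sub, Polynomial.map_add, Polynomial.map_mul, Polynomial.map_mul, hA, hB, hF,
      ← derivative_map, hF, hab, Polynomial.map_one, sub_self]
  have h1 := ev_zero K U _ h0
  have hroot : ∀ᶠ N in U, ∃ x : K N, (F.map (Pi.evalRingHom K N)).eval x = 0 := by
    filter_upwards [h1] with N hN
    have hs : (F.map (Pi.evalRingHom K N)).Separable := by
      refine ⟨A.map (Pi.evalRingHom K N), B.map (Pi.evalRingHom K N), ?_⟩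
      rw [Polynomial.map_sub, Polynomial.map_add, Polynomial.map_mul, Polynomial.map_mul,
        Polynomial.map_one, sub_eq_zero, ← derivative_map] at hN
      exact hN
    have hd : (F.map (Pi.evalRingHom K N)).degree ≠ 0 := by
      have hm := hFm.map (Pi.evalRingHom K N)
      rw [degree_eq_natDegree hm.ne_zero, hFm.natDegree_map, hFd]
      have := hirr.natDegree_pos
      exact_mod_cast this.ne'
    obtain ⟨x, hx⟩ := IsSepClosed.exists_root _ hd hs
    exact ⟨x, hx⟩
  classical
  let x : ∀ N, K N := fun N =>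
    if h : ∃ x : K N, (F.map (Pi.evalRingHom K N)).eval x = 0 then h.choose else 0
  have hx : ∀ᶠ N in U, (F.map (Pi.evalRingHom K N)).eval (x N) = 0 := by
    filter_upwards [hroot] with N hN
    have : x N = hN.choose := dif_pos hN
    rw [this]
    exact hN.choose_spec
  refine ⟨Ideal.Quotient.mk (UI K U) x, ?_⟩
  rw [← hF, eval_map_apply]
  refine (cls_eq_zero K U _).mpr ?_
  filter_upwards [hx] with N hN
  rw [← hN]
  exact (eval_map_apply (f := Pi.evalRingHom K N) (p := F) x).symm

theorem t_SC : S_SC.{u} := fun F _ U => sepClosed_ul (fun N => SeparableClosure (F N)) U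

end Pool.Agent.Helper19.ML
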